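import Pool.Agent.Y750.MB.Neg

set_option autoImplicit false

/-! # Multiboard Gale-Stewart games: undetermined on countably many boards, won by ONE on as many
boards as there are when there are uncountably many; for every set of moves

The moves are read as bits. On each board TWO first plays a label (a natural number, in unary), then
ONE plays a role (a bit), then both players play a sequence of bits. With uncountably many boards,
ONE pairs, within each label class, all but countably many boards, at the moment when the label is
complete, gives the two boards of a pair different roles, and copies TWO's moves from one board of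
the pair to the other: so at least one board of each pair is won (a board without a label is won by
ONE). On countably many boards TWO can play different labels, and a diagonal construction of the
payoff set (selection lemma `avoid` of the starting file's library) defeats every strategy of ONE. -/

namespace Pool.Agent.Results.MP_801c54_lc.AsManyBoards

open Cardinal Set

/-- ONE has a winning strategy in the game with set `M` of moves and payoff set `S` played on the set
`K` of boards: a function `σ` from finite sequences of moves (a move is a function `K → M`) to moves
such that in each play `f` (of which ONE makes the moves `f 0, f 2, f 4, …`) in which ONE follows `σ`,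
the moves on at least one board form a member of `S`. For `M = ℕ` this is the game of the problem. -/
def OneWins (K M : Type) (S : Set (ℕ → M)) : Prop :=
  ∃ σ : List (K → M) → (K → M), ∀ f : ℕ → K → M,
    (∀ n : ℕ, f (2 * n) = σ (List.ofFn (fun i : Fin (2 * n) => f i))) →
      ∃ α : K, (fun n : ℕ => f n α) ∈ S

/-- TWO has a winning strategy: a function `τ` from finite sequences of moves to moves such that in
each play `f` (of which TWO makes the moves `f 1, f 3, f 5, …`) in which TWO follows `τ`, the moves on
no board form a member of `S`. -/
def TwoWins (K M : Type) (S : Set (ℕ → M)) : Prop :=
  ∃ τ : List (K → M) → (K → M), ∀ f : ℕ → K → M,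
    (∀ n : ℕ, f (2 * n + 1) = τ (List.ofFn (fun i : Fin (2 * n + 1) => f i))) →
      ∀ α : K, (fun n : ℕ => f n α) ∉ S

/-- ONE can win on as many boards as there are: some strategy `σ` of ONE is such that in each play
`f` in which ONE follows `σ` the set of the boards on which the moves form a member of `S` has the
cardinality of the set `K` of all boards. -/
def OneWinsOnAsManyBoards (K M : Type) (S : Set (ℕ → M)) : Prop :=
  ∃ σ : List (K → M) → (K → M), ∀ f : ℕ → K → M,
    (∀ n : ℕ, f (2 * n) = σ (List.ofFn (fun i : Fin (2 * n) => f i))) →
      #{α : K | (fun n : ℕ => f n α) ∈ S} = #K

/-- **Main theorem.** (1) (Q1) There is a set `S` of sequences of natural numbers such that the game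
with payoff set `S` on `2 ^ ℵ₀` boards (the set `ℕ → Bool` of boards) is won by ONE, and on `ℵ₀`
boards neither player has a winning strategy.
(2) More generally, for every set `M` of moves with at least two elements (for instance `ℕ` or
`{0, 1}`) there is a payoff set `S` of sequences of moves such that, on every uncountable set `K` of
boards, ONE wins and even has a strategy that wins on `|K|` many boards at once in every play, and on
every nonempty countable set of boards neither player has a winning strategy. -/
theorem result :
    (∃ S : Set (ℕ → ℕ), OneWins (ℕ → Bool) ℕ S ∧ ¬ (OneWins ℕ ℕ S ∨ TwoWins ℕ ℕ S)) ∧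
    (∀ M : Type, Nontrivial M → ∃ S : Set (ℕ → M),
      (∀ K : Type, Uncountable K → OneWins K M S ∧ OneWinsOnAsManyBoards K M S) ∧
      (∀ K : Type, Nonempty K → Countable K → ¬ (OneWins K M S ∨ TwoWins K M S))) := by
  refine ⟨?_, fun M hM => Pool.Agent.Y750.MB.main M hM⟩
  obtain ⟨S, h1, h2⟩ := Pool.Agent.Y750.MB.main ℕ inferInstance
  have hu : Uncountable (ℕ → Bool) := by
    rw [← Cardinal.aleph0_lt_mk_iff]
    simpa using Cardinal.aleph0_lt_continuum
  exact ⟨S, (h1 _ hu).1, h2 ℕ inferInstance inferInstance⟩

end Pool.Agent.Results.MP_801c54_lc.AsManyBoards
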